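import Pool.Agent.SelfMinorPk.PathFree
import Pool.Agent.SelfMinor.Trans

/-!
# Countable graphs without long induced paths are proper minors of themselves
-/

namespace Pool.Agent.Results.MP_fa2f78_co.PathFree

/-- `H` is a minor of `G`: there are pairwise disjoint sets of vertices of `G`, one for each vertex
of `H`, each inducing a connected (in particular nonempty) subgraph, with an edge of `G` between
the sets of any two adjacent vertices of `H` -/
def IsMinor {W V : Type*} (H : SimpleGraph W) (G : SimpleGraph V) : Prop :=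
  ∃ B : W → Set V, (∀ h, (G.induce (B h)).Connected) ∧
    (∀ h h', h ≠ h' → Disjoint (B h) (B h')) ∧
    ∀ h h', H.Adj h h' → ∃ a ∈ B h, ∃ b ∈ B h', G.Adj a b

/-- Let `G` be a countable graph and `U` an infinite set of vertices with only finitely many
neighbours outside `U` such that `G[U]` has no induced path on `k` vertices. Then `G` is a minor of
the graph obtained from `G` by deleting some vertex of `U`. -/
theorem result {V : Type*} [Countable V] (G : SimpleGraph V) (k : ℕ) (U : Set V)
    (hU : U.Infinite) (hN : {v | v ∉ U ∧ ∃ u ∈ U, G.Adj u v}.Finite)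
    (hP : IsEmpty (SimpleGraph.pathGraph k ↪g G.induce U)) :
    ∃ x ∈ U, IsMinor G (G.induce ({x}ᶜ : Set V)) := by
  obtain ⟨x, hx, B, hB, hBd, hBa, hBx⟩ := SelfMinorPk.main (r := G.Adj) (fun _ _ h => h.symm)
    (SelfMinorPk.dp_of_pathFree G k U hP) hU hN
  have hne : ∀ v, ∀ w ∈ B v, w ≠ x := fun v w hw h => hBx v (h ▸ hw)
  refine ⟨x, hx, fun v => {w | w.1 ∈ B v}, fun v => ?_, fun u v huv => ?_, fun u v huv => ?_⟩
  · refine SelfMinor.con_induce ?_ ?_
    · obtain ⟨w, hw⟩ := (hB v).1
      exact ⟨⟨w, hne v w hw⟩, hw⟩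
    · rintro ⟨a, hax⟩ ha ⟨b, hbx⟩ hb
      have h1 := (hB v).2 a ha b hb
      clear hb
      induction h1 with
      | refl => exact .refl
      | @tail c d _ h2 ih =>
        refine (ih (hne v c h2.2.1)).tail (b := ⟨c, hne v c h2.2.1⟩) ?_
        exact ⟨h2.1, h2.2.1, h2.2.2⟩
  · rw [Set.disjoint_left]
    intro w hw hw'
    exact Set.disjoint_left.1 (hBd u v huv) hw hw'
  · obtain ⟨a, ha, b, hb, hab⟩ := hBa u v huv huv.ne
    exact ⟨⟨a, hne u a ha⟩, ha, ⟨b, hne v b hb⟩, hb, hab⟩

end Pool.Agent.Results.MP_fa2f78_co.PathFree
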