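import Pool.Agent.SelfMinorPw.Main
import Pool.Agent.SelfMinor.Trans

/-!
# Infinite graphs of bounded path-width are proper minors of themselves
-/

namespace Pool.Agent.Results.MP_fa2f78_co.PathWidth

/-- `G[F]` has a path decomposition `B 0, ..., B (n-1)` with at most `w` vertices in each bag:
every vertex of `F` is in a bag, every edge of `G[F]` is in a bag, and a vertex which is in two
bags is in all bags between them -/
def PathDecomposition {V : Type*} (G : SimpleGraph V) (F : Finset V) (w : ℕ) : Prop :=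
  ∃ (n : ℕ) (B : Fin n → Finset V), (∀ i, (B i).card ≤ w) ∧ (∀ v ∈ F, ∃ i, v ∈ B i) ∧
    (∀ u ∈ F, ∀ v ∈ F, G.Adj u v → ∃ i, u ∈ B i ∧ v ∈ B i) ∧
    ∀ i j k, i ≤ j → j ≤ k → ∀ v, v ∈ B i → v ∈ B k → v ∈ B j

/-- a model of `G` in `G` which misses a vertex or has both ends of an edge in one branch set:
there are pairwise disjoint sets of vertices, one for each vertex of `G`, each inducing a
connected (in particular nonempty) subgraph, with an edge of `G` between the sets of any two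
adjacent vertices, and either some vertex is in none of them or some of them contains both ends
of an edge -/
def ProperSelfMinor {V : Type*} (G : SimpleGraph V) : Prop :=
  ∃ B : V → Set V, (∀ v, (G.induce (B v)).Connected) ∧ (∀ u v, u ≠ v → Disjoint (B u) (B v)) ∧
    (∀ u v, G.Adj u v → ∃ a ∈ B u, ∃ b ∈ B v, G.Adj a b) ∧
    ((∃ x, ∀ v, x ∉ B v) ∨ ∃ v, ∃ a ∈ B v, ∃ b ∈ B v, G.Adj a b)

/-- Let `G` be a graph and `U` an infinite set of vertices with only finitely many neighbours
outside `U` such that, for some `w`, all finite subsets `F` of `U` induce graphs of path-width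
less than `w`. Then `G` is a proper minor of itself. -/
theorem result {V : Type*} (G : SimpleGraph V) (w : ℕ) (U : Set V) (hU : U.Infinite)
    (hN : {v | v ∉ U ∧ ∃ u ∈ U, G.Adj u v}.Finite)
    (hP : ∀ F : Finset V, (F : Set V) ⊆ U → PathDecomposition G F w) : ProperSelfMinor G := by
  classical
  have hB : ∀ F : Finset V, (F : Set V) ⊆ U → ∃ m B,
      SelfMinorPw.Bags G.Adj w (F : Set V) m B := by
    intro F hF
    obtain ⟨n, B, h1, h2, h3, h4⟩ := hP F hF
    have hlt : ∀ i : ℕ, ∀ v, v ∈ (if h : i < n then ((B ⟨i, h⟩ : Finset V) : Set V) ∩ F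
        else (∅ : Set V)) → ∃ h : i < n, v ∈ B ⟨i, h⟩ ∧ v ∈ F := by
      intro i v hv
      by_cases hi : i < n
      · rw [dif_pos hi] at hv
        exact ⟨hi, hv.1, hv.2⟩
      · rw [dif_neg hi] at hv
        exact absurd hv (Set.notMem_empty v)
    have hgt : ∀ i (h : i < n), ∀ v ∈ F, v ∈ B ⟨i, h⟩ →
        v ∈ (if h : i < n then ((B ⟨i, h⟩ : Finset V) : Set V) ∩ F else (∅ : Set V)) := by
      intro i h v hvF hv
      rw [dif_pos h]
      exact ⟨hv, hvF⟩
    refine ⟨n - 1, fun i => if h : i < n then ((B ⟨i, h⟩ : Finset V) : Set V) ∩ F else ∅,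
      ⟨fun i v hv => ?_, fun i => ?_, fun v hv => ?_, fun u hu v hv huv => ?_,
      fun i j k hij hjk hk v hi hk' => ?_⟩⟩
    · obtain ⟨_, _, h⟩ := hlt i v hv
      exact h
    · by_cases hi : i < n
      · refine le_trans (Set.ncard_le_ncard (t := ((B ⟨i, hi⟩ : Finset V) : Set V)) ?_
          (Finset.finite_toSet _)) ?_
        · intro v hv
          obtain ⟨_, h, _⟩ := hlt i v hv
          exact h
        · rw [Set.ncard_coe_finset]
          exact h1 _
      · rw [dif_neg hi, Set.ncard_empty]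
        exact Nat.zero_le _
    · obtain ⟨i, hi⟩ := h2 v hv
      exact ⟨i.1, by omega, hgt i.1 i.2 v hv hi⟩
    · obtain ⟨i, hui, hvi⟩ := h3 u hu v hv huv
      exact ⟨i.1, by omega, hgt i.1 i.2 u hu hui, hgt i.1 i.2 v hv hvi⟩
    · obtain ⟨hin, hiv, hvF⟩ := hlt i v hi
      obtain ⟨hkn, hkv, _⟩ := hlt k v hk'
      exact hgt j (lt_of_le_of_lt hjk hkn) v hvF
        (h4 ⟨i, hin⟩ ⟨j, lt_of_le_of_lt hjk hkn⟩ ⟨k, hkn⟩ hij hjk v hiv hkv)
  obtain ⟨B, b1, b2, b3, b4⟩ := SelfMinorPw.main (r := G.Adj) (fun _ _ h => h.symm) hU hN hB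
  refine ⟨B, fun v => SelfMinor.con_induce (b1 v).1 (b1 v).2, b2,
    fun u v huv => b3 u v huv huv.ne, ?_⟩
  rcases b4 with ⟨x, -, hx⟩ | ⟨v, a, ha, b, hb, -, -, -, hab⟩
  · exact Or.inl ⟨x, hx⟩
  · exact Or.inr ⟨v, a, ha, b, hb, hab⟩

end Pool.Agent.Results.MP_fa2f78_co.PathWidth
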