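import Pool.Agent.SelfMinor.Quasi

/-!
# Quasi-transitive graphs with at least two ends are proper minors of themselves

A partial answer to the self-minor question of Seymour. Let `G` be a connected graph whose
automorphism group has finitely many orbits on the vertices. If some finite set `K` separates two
sets of vertices both of which contain vertices arbitrarily far from `K`, then `G` is a proper
minor of itself. If `G` is locally finite, the hypothesis says that `G` has at least two
ends; see `SelfMinor.tsep_of_ends` in `Pool.Agent.SelfMinor.Quasi`.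

Proof: some automorphism moves one side of a finite separation (enlarged to have a connected
separator) into itself; then the theorem on self-similar sides applies
(`SelfMinor.proper_of_tsep`).
-/

namespace Pool.Agent.Results.MP_fa2f78_co.QuasiTransitiveEnds

variable {V : Type*}

/-- `G` is a minor of `G / e` for some edge `e`: there is a model of `G` in `G` (nonempty,
connected, pairwise disjoint branch sets `M v`, with an edge of `G` between `M u` and `M v`
whenever `u` and `v` are adjacent) some branch set of which contains both ends of an edge. -/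
def ProperSelfMinor (G : SimpleGraph V) : Prop :=
  ∃ M : V → Set V, (∀ v, (M v).Nonempty) ∧ (∀ v, (G.induce (M v)).Connected) ∧
    (∀ u v, u ≠ v → Disjoint (M u) (M v)) ∧
    (∀ u v, G.Adj u v → ∃ x ∈ M u, ∃ y ∈ M v, G.Adj x y) ∧
    ∃ w, ∃ x ∈ M w, ∃ y ∈ M w, G.Adj x y

/-- `G` has finitely many orbits of vertices under its automorphisms. -/
def QuasiTransitive (G : SimpleGraph V) : Prop :=
  ∃ F : Set V, F.Finite ∧ ∀ v, ∃ g : G ≃g G, g v ∈ F

/-- `C` is a component of `G - K` that contains vertices at arbitrarily large distance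
from `K`. -/
def IsDeep (G : SimpleGraph V) (K : Finset V) (C : G.ComponentCompl K) : Prop :=
  ∀ n : ℕ, ∃ v ∈ C, ∀ k ∈ K, n < G.dist k v

theorem result (V : Type*) (G : SimpleGraph V) (hG : G.Connected) (hq : QuasiTransitive G)
    (h : (∃ (K : Finset V) (C D : G.ComponentCompl K), C ≠ D ∧ IsDeep G K C ∧ IsDeep G K D) ∨
      ((∀ v, (G.neighborSet v).Finite) ∧ ∃ e₁ e₂ : G.end, e₁ ≠ e₂)) :
    ProperSelfMinor G := by
  obtain ⟨F, hF, hF'⟩ := hq
  have hF2 : ∀ v, ∃ g : G ≃g G, g v ∈ hF.toFinset := by
    intro v
    obtain ⟨g, hg⟩ := hF' v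
    exact ⟨g, hF.mem_toFinset.2 hg⟩
  rcases h with ⟨K, C, D, hCD, hC, hD⟩ | ⟨hlf, he⟩
  · have hdisj := SimpleGraph.ComponentCompl.pairwise_disjoint hCD
    have hT : SelfMinor.TwoSided G {v | v ∉ K ∧ v ∉ C} K (C : Set V) := by
      refine ⟨fun v => ?_, fun v hv hv' => hv'.1 hv,
        fun v hv hv' => SimpleGraph.ComponentCompl.notMem_of_mem hv' hv,
        fun v hv hv' => hv.2 hv', fun u hu v huv => ?_, fun u hu v huv => ?_⟩
      · by_cases h1 : v ∈ K
        · exact Or.inr (Or.inl h1)
        · by_cases h2 : v ∈ C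
          · exact Or.inr (Or.inr h2)
          · exact Or.inl ⟨h1, h2⟩
      · by_cases h1 : v ∈ K
        · exact Or.inr h1
        · refine Or.inl ⟨h1, fun h2 => hu.2 ?_⟩
          exact SimpleGraph.ComponentCompl.mem_of_adj v u h2 hu.1 huv.symm
      · by_cases h1 : v ∈ K
        · exact Or.inr h1
        · exact Or.inl (SimpleGraph.ComponentCompl.mem_of_adj u v hu h1 huv)
    refine SelfMinor.proper_of_tsep hG (SelfMinor.tsep_of_deep' hG hF2 hT (fun n => ?_) hC)
    obtain ⟨v, hv, hv'⟩ := hD n
    exact ⟨v, ⟨SimpleGraph.ComponentCompl.notMem_of_mem hv,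
      fun h1 => Set.disjoint_left.1 hdisj h1 hv⟩, hv'⟩
  · exact SelfMinor.proper_of_tsep hG (SelfMinor.tsep_of_ends hG hlf hF2 he)

end Pool.Agent.Results.MP_fa2f78_co.QuasiTransitiveEnds
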