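import Pool.Agent.SelfMinor.Trans

/-!
# Graphs with a self-similar side are proper minors of themselves

A partial answer to the self-minor question of Seymour. A *side* of a graph `G` is a set `B` of
vertices whose neighbours all lie in `B ∪ S` for a finite set `S` disjoint from `B`. If the graph
on `B ∪ S` is isomorphic, with `S` going to `S'`, to the graph on `B' ∪ S' ⊆ B` for another side
`B'` with separator `S'`, then the connected graph `G` is a proper minor of itself.

Proof: take such a situation with `S` smallest. By Menger's theorem (proved in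
`Pool.Agent.SelfMinor`) there are `|S|` disjoint connected sets joining `S` and `S'` in the slab
between them: a smaller separator in the slab would give, with a power of the isomorphism, a
smaller situation. Iterating until the permutation of `S` so obtained becomes trivial and
contracting the connected sets gives the model of `G` in itself.
-/

namespace Pool.Agent.Results.MP_fa2f78_co.SelfSimilarSide

variable {V : Type*}

/-- `G` is a minor of `G / e` for some edge `e`: there is a model of `G` in `G` (nonempty,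
connected, pairwise disjoint branch sets `M v`, with an edge of `G` between `M u` and `M v`
whenever `u` and `v` are adjacent) some branch set of which contains both ends of an edge. -/
def ProperSelfMinor (G : SimpleGraph V) : Prop :=
  ∃ M : V → Set V, (∀ v, (M v).Nonempty) ∧ (∀ v, (G.induce (M v)).Connected) ∧
    (∀ u v, u ≠ v → Disjoint (M u) (M v)) ∧
    (∀ u v, G.Adj u v → ∃ x ∈ M u, ∃ y ∈ M v, G.Adj x y) ∧
    ∃ w, ∃ x ∈ M w, ∃ y ∈ M w, G.Adj x y

/-- `B` is a side of `G` with separator `S`: `S` is disjoint from `B` and no vertex of `B` has a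
neighbour outside `B ∪ S`. -/
def IsSide (G : SimpleGraph V) (S B : Set V) : Prop :=
  Disjoint S B ∧ ∀ u ∈ B, ∀ v, G.Adj u v → v ∈ B ∪ S

theorem result (V : Type*) (G : SimpleGraph V) (hG : G.Connected) (S S' B B' : Set V)
    (hfin : S.Finite) (hne : S.Nonempty) (hS : IsSide G S B) (hS' : IsSide G S' B')
    (hsub : B' ∪ S' ⊆ B)
    (ψ : G.induce (B ∪ S) ≃g G.induce (B' ∪ S'))
    (hψ : ∀ v : ↥(B ∪ S), (v : V) ∈ S ↔ (ψ v : V) ∈ S') :
    ProperSelfMinor G := by
  classical
  have hor : ∀ v, (v ∈ B ∨ v ∈ hfin.toFinset) → v ∈ B ∪ S := by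
    intro v hv
    rcases hv with hv | hv
    · exact Or.inl hv
    · exact Or.inr (hfin.mem_toFinset.1 hv)
  set f : V → V := fun v => if hv : v ∈ B ∪ S then (ψ ⟨v, hv⟩ : V) else v with hf
  have hfv : ∀ v (hv : v ∈ B ∪ S), f v = (ψ ⟨v, hv⟩ : V) := fun v hv => dif_pos hv
  have hT : SelfMinor.TSep G f hfin.toFinset B := by
    refine ⟨?_, ?_, ?_, ?_, ?_, ?_, ?_⟩
    · exact (Set.Finite.toFinset_nonempty hfin).2 hne
    · exact fun v hv => Set.disjoint_left.1 hS.1 (hfin.mem_toFinset.1 hv)
    · intro u hu v huv
      rcases hS.2 u hu v huv with h | h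
      · exact Or.inl h
      · exact Or.inr (hfin.mem_toFinset.2 h)
    · intro v hv
      rw [hfv v (hor v hv)]
      exact hsub (ψ ⟨v, hor v hv⟩).2
    · intro u v hu hv huv
      rw [hfv u (hor u hu), hfv v (hor v hv)] at huv
      exact congrArg Subtype.val (ψ.injective (Subtype.ext huv))
    · intro u v hu hv
      rw [hfv u (hor u hu), hfv v (hor v hv)]
      exact ψ.map_rel_iff (a := ⟨u, hor u hu⟩) (b := ⟨v, hor v hv⟩)
    · intro b hb v hbv
      have hbS : b ∉ S := fun h => Set.disjoint_left.1 hS.1 h hb
      rw [hfv b (Or.inl hb)] at hbv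
      have h1 : (ψ ⟨b, Or.inl hb⟩ : V) ∈ B' := by
        rcases (ψ ⟨b, Or.inl hb⟩).2 with h | h
        · exact h
        · exact absurd ((hψ ⟨b, Or.inl hb⟩).2 h) hbS
      have h2 := hS'.2 _ h1 v hbv
      have h3 : ψ (ψ.symm ⟨v, h2⟩) = ⟨v, h2⟩ := ψ.apply_symm_apply _
      refine ⟨ψ.symm ⟨v, h2⟩, ?_, ?_⟩
      · rcases (ψ.symm ⟨v, h2⟩).2 with h | h
        · exact Or.inl h
        · exact Or.inr (hfin.mem_toFinset.2 h)
      · rw [hfv _ (ψ.symm ⟨v, h2⟩).2]
        exact congrArg Subtype.val h3
  exact SelfMinor.proper_of_tsep hG ⟨f, _, B, hT⟩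

end Pool.Agent.Results.MP_fa2f78_co.SelfSimilarSide
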